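import Mathlib
import Pool.Agent.D0H95.BF.Stm6

/-! Module FOUR for helper95 (MP_5027f4_mp). -/

set_option autoImplicit false

open Finset Matrix

namespace Pool.Agent.D0H81.BF

open Pool.Agent.D0H95.BF

/-- real coordinates -/
noncomputable def co : (ℂ × ℂ) ≃ₗ[ℝ] (Fin 4 → ℝ) where
  toFun x := ![x.1.re, x.1.im, x.2.re, x.2.im]
  invFun f := (⟨f 0, f 1⟩, ⟨f 2, f 3⟩)
  map_add' x y := by
    funext k; fin_cases k <;> simp
  map_smul' r x := by
    funext k; fin_cases k <;> simp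
  left_inv x := by simp
  right_inv f := by
    funext k; fin_cases k <;> simp

noncomputable def bs : Module.Basis (Fin 4) ℝ (ℂ × ℂ) := Module.Basis.ofEquivFun co

/-- complexified coordinates of `q + i s` -/
noncomputable def cv (q s : ℂ × ℂ) : Fin 4 → ℂ := fun k => (co q k : ℂ) + Complex.I * (co s k : ℂ)

theorem co0 (x : ℂ × ℂ) : co x 0 = x.1.re := rfl
theorem co1 (x : ℂ × ℂ) : co x 1 = x.1.im := rfl
theorem co2 (x : ℂ × ℂ) : co x 2 = x.2.re := rfl
theorem co3 (x : ℂ × ℂ) : co x 3 = x.2.im := rfl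

noncomputable def Om (u w : Fin 4 → ℂ) : ℂ := u 0 * w 2 + u 1 * w 3 - u 2 * w 0 - u 3 * w 1

theorem cv_eig (M : ℂ × ℂ →L[ℝ] ℂ × ℂ) (m : ℂ) (q s : ℂ × ℂ)
    (h1 : M q = m.re • q - m.im • s) (h2 : M s = m.im • q + m.re • s) :
    cv (M q) (M s) = m • cv q s := by
  funext k
  rw [h1, h2]
  simp only [cv, map_sub, map_add, map_smul, Pi.sub_apply, Pi.add_apply, Pi.smul_apply, smul_eq_mul]
  have hm : m = (m.re : ℂ) + Complex.I * (m.im : ℂ) := by
    rw [mul_comm]; exact (Complex.re_add_im m).symm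
  have hI : Complex.I * Complex.I = -1 := Complex.I_mul_I
  conv_rhs => rw [hm]
  push_cast
  linear_combination (-(m.im : ℂ) * (co s k : ℂ)) * hI

theorem cv_ne (q s : ℂ × ℂ) (h : q ≠ 0 ∨ s ≠ 0) : cv q s ≠ 0 := by
  intro h0
  have h1 : ∀ k, co q k = 0 ∧ co s k = 0 := by
    intro k
    have h2 := congrFun h0 k
    have h3 := congrArg Complex.re h2
    have h4 := congrArg Complex.im h2
    simp [cv] at h3 h4
    exact ⟨h3, h4⟩
  rcases h with h | h
  · exact h (co.injective (by rw [map_zero]; funext k; exact (h1 k).1))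
  · exact h (co.injective (by rw [map_zero]; funext k; exact (h1 k).2))

theorem Om_inv (M : ℂ × ℂ →L[ℝ] ℂ × ℂ)
    (h : ∀ x y : ℂ × ℂ, ((starRingEnd ℂ) (M x).1 * (M y).2).re -
      ((starRingEnd ℂ) (M y).1 * (M x).2).re =
      ((starRingEnd ℂ) x.1 * y.2).re - ((starRingEnd ℂ) y.1 * x.2).re) (q s q' s' : ℂ × ℂ) :
    Om (cv (M q) (M s)) (cv (M q') (M s')) = Om (cv q s) (cv q' s') := by
  have e : ∀ x y : ℂ × ℂ, ((starRingEnd ℂ) x.1 * y.2).re - ((starRingEnd ℂ) y.1 * x.2).re =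
      co x 0 * co y 2 + co x 1 * co y 3 - co x 2 * co y 0 - co x 3 * co y 1 := by
    intro x y
    simp only [co0, co1, co2, co3, Complex.mul_re, Complex.conj_re, Complex.conj_im]
    ring
  have h1 := h q q'
  have h2 := h s s'
  have h3 := h q s'
  have h4 := h s q'
  rw [e, e] at h1 h2 h3 h4
  have g1 : ((co (M q) 0 * co (M q') 2 + co (M q) 1 * co (M q') 3 - co (M q) 2 * co (M q') 0 -
    co (M q) 3 * co (M q') 1 : ℝ) : ℂ) = ((co q 0 * co q' 2 + co q 1 * co q' 3 - co q 2 * co q' 0 -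
    co q 3 * co q' 1 : ℝ) : ℂ) := by rw [h1]
  have g2 : ((co (M s) 0 * co (M s') 2 + co (M s) 1 * co (M s') 3 - co (M s) 2 * co (M s') 0 -
    co (M s) 3 * co (M s') 1 : ℝ) : ℂ) = ((co s 0 * co s' 2 + co s 1 * co s' 3 - co s 2 * co s' 0 -
    co s 3 * co s' 1 : ℝ) : ℂ) := by rw [h2]
  have g3 : ((co (M q) 0 * co (M s') 2 + co (M q) 1 * co (M s') 3 - co (M q) 2 * co (M s') 0 -
    co (M q) 3 * co (M s') 1 : ℝ) : ℂ) = ((co q 0 * co s' 2 + co q 1 * co s' 3 - co q 2 * co s' 0 -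
    co q 3 * co s' 1 : ℝ) : ℂ) := by rw [h3]
  have g4 : ((co (M s) 0 * co (M q') 2 + co (M s) 1 * co (M q') 3 - co (M s) 2 * co (M q') 0 -
    co (M s) 3 * co (M q') 1 : ℝ) : ℂ) = ((co s 0 * co q' 2 + co s 1 * co q' 3 - co s 2 * co q' 0 -
    co s 3 * co q' 1 : ℝ) : ℂ) := by rw [h4]
  push_cast at g1 g2 g3 g4
  simp only [Om, cv]
  linear_combination g1 + Complex.I ^ 2 * g2 + Complex.I * g3 + Complex.I * g4

theorem Om_smul (a b : ℂ) (u w : Fin 4 → ℂ) : Om (a • u) (b • w) = a * b * Om u w := by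
  simp only [Om, Pi.smul_apply, smul_eq_mul]
  ring

theorem pair_nd {m k : ℂ} (m' k' : ℂ) (h1 : m * m' = 1) (h2 : k * k' = 1) (hm1 : m ≠ 1)
    (hm2 : m ≠ -1) (hk1 : k ≠ 1) (hk2 : k ≠ -1) (hmk : m ≠ k) (hmk' : m ≠ k')
    {S T : ℂ} (hS : S = m + m' + k + k') (hT : T = m ^ 2 + m' ^ 2 + k ^ 2 + k' ^ 2) :
    (S ^ 2 - 4 * ((S ^ 2 - T) / 2) + 8) * (((S ^ 2 - T) / 2 + 2) ^ 2 - 4 * S ^ 2) ≠ 0 := by
  have hm0 : m ≠ 0 := left_ne_zero_of_mul_eq_one h1
  have hk0 : k ≠ 0 := left_ne_zero_of_mul_eq_one h2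
  have hb : (S ^ 2 - T) / 2 = (m + m') * (k + k') + 2 := by
    rw [hS, hT]
    linear_combination h1 + h2
  have e1 : S ^ 2 - 4 * ((S ^ 2 - T) / 2) + 8 = ((m + m') - (k + k')) ^ 2 := by
    rw [hb, hS]; ring
  have e2 : ((S ^ 2 - T) / 2 + 2) ^ 2 - 4 * S ^ 2 =
      ((m + m') - 2) * ((m + m') + 2) * ((k + k') - 2) * ((k + k') + 2) := by
    rw [hb, hS]; ring
  rw [e1, e2]
  have f1 : m * ((m + m') - 2) = (m - 1) ^ 2 := by linear_combination h1
  have f2 : m * ((m + m') + 2) = (m + 1) ^ 2 := by linear_combination h1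
  have f3 : k * ((k + k') - 2) = (k - 1) ^ 2 := by linear_combination h2
  have f4 : k * ((k + k') + 2) = (k + 1) ^ 2 := by linear_combination h2
  have f5 : m * ((m + m') - (k + k')) = (m - k) * (m - k') := by
    linear_combination h1 - h2
  have n1 : (m + m') - 2 ≠ 0 := by
    intro h; rw [h, mul_zero] at f1
    exact hm1 (sub_eq_zero.mp (pow_eq_zero_iff (two_ne_zero) |>.mp f1.symm))
  have n2 : (m + m') + 2 ≠ 0 := by
    intro h; rw [h, mul_zero] at f2
    exact hm2 (eq_neg_of_add_eq_zero_left (pow_eq_zero_iff (two_ne_zero) |>.mp f2.symm))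
  have n3 : (k + k') - 2 ≠ 0 := by
    intro h; rw [h, mul_zero] at f3
    exact hk1 (sub_eq_zero.mp (pow_eq_zero_iff (two_ne_zero) |>.mp f3.symm))
  have n4 : (k + k') + 2 ≠ 0 := by
    intro h; rw [h, mul_zero] at f4
    exact hk2 (eq_neg_of_add_eq_zero_left (pow_eq_zero_iff (two_ne_zero) |>.mp f4.symm))
  have n5 : (m + m') - (k + k') ≠ 0 := by
    intro h; rw [h, mul_zero] at f5
    rcases mul_eq_zero.mp f5.symm with h | h
    · exact hmk (sub_eq_zero.mp h)
    · exact hmk' (sub_eq_zero.mp h)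
  exact mul_ne_zero (pow_ne_zero 2 n5) (mul_ne_zero (mul_ne_zero (mul_ne_zero n1 n2) n3) n4)

theorem t_FOUR : S_FOUR := by
  intro M hM μ hμ hμ1 hE
  choose q s hqs hq hs using hE
  set v : Fin 4 → (Fin 4 → ℂ) := fun j => cv (q j) (s j) with hv
  set A : Matrix (Fin 4) (Fin 4) ℝ := LinearMap.toMatrix bs bs (M : ℂ × ℂ →ₗ[ℝ] ℂ × ℂ) with hA
  set AC : Matrix (Fin 4) (Fin 4) ℂ := A.map Complex.ofReal with hAC
  have hAco : ∀ x : ℂ × ℂ, A *ᵥ (co x) = co (M x) := by
    intro x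
    have h := LinearMap.toMatrix_mulVec_repr bs bs (M : ℂ × ℂ →ₗ[ℝ] ℂ × ℂ) x
    have e : ∀ x, ⇑(bs.repr x) = co x := fun x => by
      funext k; rw [bs, Module.Basis.ofEquivFun_repr_apply]
    rw [e, e] at h
    exact h
  have hACv : ∀ x y : ℂ × ℂ, AC *ᵥ (cv x y) = cv (M x) (M y) := by
    intro x y
    funext k
    have h1 := congrFun (hAco x) k
    have h2 := congrFun (hAco y) k
    simp only [cv, ← h1, ← h2, hAC, mulVec, dotProduct, Matrix.map_apply]
    push_cast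
    rw [mul_sum, ← sum_add_distrib]
    refine sum_congr rfl fun l _ => ?_
    ring
  have heig : ∀ j, AC *ᵥ (v j) = μ j • v j := fun j => by
    rw [hv, hACv, cv_eig M (μ j) (q j) (s j) (hq j) (hs j)]
  -- independence
  have hli : LinearIndependent ℂ v := by
    refine Module.End.eigenvectors_linearIndependent' (Matrix.toLin' AC) μ hμ v fun j => ?_
    refine Module.End.hasEigenvector_iff.mpr ⟨?_, cv_ne _ _ (hqs j)⟩
    rw [Module.End.mem_eigenspace_iff, Matrix.toLin'_apply]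
    exact heig j
  set P : Matrix (Fin 4) (Fin 4) ℂ := Matrix.of fun k j => v j k with hP
  have hPu : IsUnit P := by
    rw [← Matrix.linearIndependent_cols_iff_isUnit]
    exact hli
  have hdet : IsUnit P.det := (Matrix.isUnit_iff_isUnit_det P).mp hPu
  have hAP : AC * P = P * Matrix.diagonal μ := by
    ext k j
    have h1 := congrFun (heig j) k
    rw [Matrix.mul_diagonal]
    simp only [Pi.smul_apply, smul_eq_mul] at h1
    rw [hP, Matrix.of_apply, mul_comm, ← h1]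
    rfl
  have hAC1 : AC = P * Matrix.diagonal μ * P⁻¹ := by
    rw [← hAP, Matrix.mul_assoc, Matrix.mul_nonsing_inv P hdet, Matrix.mul_one]
  have htr1 : AC.trace = ∑ j, μ j := by
    rw [hAC1, Matrix.trace_mul_comm, ← Matrix.mul_assoc, Matrix.nonsing_inv_mul P hdet,
      Matrix.one_mul, Matrix.trace_diagonal]
  have htr2 : (AC * AC).trace = ∑ j, μ j ^ 2 := by
    have h1 : AC * AC = P * (Matrix.diagonal μ * Matrix.diagonal μ) * P⁻¹ := by
      rw [hAC1]
      have : P * Matrix.diagonal μ * P⁻¹ * (P * Matrix.diagonal μ * P⁻¹) =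
          P * Matrix.diagonal μ * (P⁻¹ * P) * (Matrix.diagonal μ * P⁻¹) := by
        simp only [Matrix.mul_assoc]
      rw [this, Matrix.nonsing_inv_mul P hdet]
      simp only [Matrix.mul_assoc, Matrix.one_mul]
    rw [h1, Matrix.trace_mul_comm, ← Matrix.mul_assoc, Matrix.nonsing_inv_mul P hdet,
      Matrix.one_mul, Matrix.diagonal_mul_diagonal, Matrix.trace_diagonal]
    exact sum_congr rfl fun j _ => (sq (μ j)).symm
  have hmap : ∀ X : Matrix (Fin 4) (Fin 4) ℝ, (X.map Complex.ofReal).trace = ((X.trace : ℝ) : ℂ) := by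
    intro X
    simp [Matrix.trace]
  have hT1 : ((tr M : ℝ) : ℂ) = ∑ j, μ j := by
    rw [← htr1, hAC, hmap]
    unfold tr
    rw [LinearMap.trace_eq_matrix_trace ℝ bs]
  have hT2 : ((tr (M.comp M) : ℝ) : ℂ) = ∑ j, μ j ^ 2 := by
    have h1 : AC * AC = (A * A).map Complex.ofReal := by
      rw [hAC]
      ext k l
      simp [Matrix.mul_apply]
    rw [← htr2, h1, hmap]
    unfold tr
    rw [LinearMap.trace_eq_matrix_trace ℝ bs]
    have h2 : ((M.comp M : ℂ × ℂ →L[ℝ] ℂ × ℂ) : ℂ × ℂ →ₗ[ℝ] ℂ × ℂ) =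
      (M : ℂ × ℂ →ₗ[ℝ] ℂ × ℂ) ∘ₗ (M : ℂ × ℂ →ₗ[ℝ] ℂ × ℂ) := rfl
    rw [h2, LinearMap.toMatrix_comp bs bs bs]
  -- pairing
  have hO : ∀ i j, μ i * μ j * Om (v i) (v j) = Om (v i) (v j) := by
    intro i j
    have h1 := Om_inv M hM (q i) (s i) (q j) (s j)
    rw [cv_eig M (μ i) (q i) (s i) (hq i) (hs i), cv_eig M (μ j) (q j) (s j) (hq j) (hs j),
      Om_smul] at h1
    exact h1
  have hpart : ∀ i, ∃ j, μ i * μ j = 1 := by
    intro i
    by_contra hno
    push Not at hno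
    have h0 : ∀ j, Om (v i) (v j) = 0 := by
      intro j
      have h1 := hO i j
      have h2 : (μ i * μ j - 1) * Om (v i) (v j) = 0 := by linear_combination h1
      exact (mul_eq_zero.mp h2).resolve_left (sub_ne_zero.mpr (hno j))
    have h1 : ∀ w : Fin 4 → ℂ, Om (v i) w = 0 := by
      intro w
      have h2 : w = P *ᵥ (P⁻¹ *ᵥ w) := by
        rw [Matrix.mulVec_mulVec, Matrix.mul_nonsing_inv P hdet, Matrix.one_mulVec]
      set c := P⁻¹ *ᵥ w with hc
      have h3 : ∀ k, w k = ∑ j, c j * v j k := by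
        intro k
        rw [h2]
        simp only [mulVec, dotProduct, hP, Matrix.of_apply]
        exact sum_congr rfl fun j _ => mul_comm _ _
      have h4 : Om (v i) w = ∑ j, c j * Om (v i) (v j) := by
        simp only [Om, h3, mul_sum, ← sum_add_distrib, ← sum_sub_distrib]
        refine sum_congr rfl fun j _ => ?_
        ring
      rw [h4]
      exact sum_eq_zero fun j _ => by rw [h0, mul_zero]
    apply cv_ne (q i) (s i) (hqs i)
    funext k
    fin_cases k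
    · have := h1 (Pi.single 2 1)
      simpa [Om] using this
    · have := h1 (Pi.single 3 1)
      simpa [Om] using this
    · have := h1 (Pi.single 0 1)
      simpa [Om] using this
    · have := h1 (Pi.single 1 1)
      simpa [Om] using this
  have hself : ∀ i, μ i * μ i ≠ 1 := by
    intro i h
    rcases mul_self_eq_one_iff.mp h with h | h
    · exact (hμ1 i).1 h
    · exact (hμ1 i).2 h
  have huniq : ∀ i j k, μ i * μ j = 1 → μ i * μ k = 1 → j = k := by
    intro i j k h1 h2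
    have h0 : μ i ≠ 0 := left_ne_zero_of_mul_eq_one h1
    exact hμ (mul_left_cancel₀ h0 (h1.trans h2.symm))
  have hne : ∀ i j, i ≠ j → μ i ≠ μ j := fun i j h h' => h (hμ h')
  have hsum1 : ((tr M : ℝ) : ℂ) = μ 0 + μ 1 + μ 2 + μ 3 := by rw [hT1, Fin.sum_univ_four]
  have hsum2 : ((tr (M.comp M) : ℝ) : ℂ) = μ 0 ^ 2 + μ 1 ^ 2 + μ 2 ^ 2 + μ 3 ^ 2 := by
    rw [hT2, Fin.sum_univ_four]
  have hcast : ((nd M : ℝ) : ℂ) = (((tr M : ℝ) : ℂ) ^ 2 - 4 * ((((tr M : ℝ) : ℂ) ^ 2 -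
      ((tr (M.comp M) : ℝ) : ℂ)) / 2) + 8) * (((((tr M : ℝ) : ℂ) ^ 2 -
      ((tr (M.comp M) : ℝ) : ℂ)) / 2 + 2) ^ 2 - 4 * ((tr M : ℝ) : ℂ) ^ 2) := by
    unfold nd b2
    push_cast
    ring
  intro hnd
  rw [hnd, Complex.ofReal_zero] at hcast
  have hfin : ∀ a b c e : Fin 4, μ a * μ b = 1 → μ c * μ e = 1 → a ≠ c → a ≠ e →
      μ 0 + μ 1 + μ 2 + μ 3 = μ a + μ b + μ c + μ e →
      μ 0 ^ 2 + μ 1 ^ 2 + μ 2 ^ 2 + μ 3 ^ 2 = μ a ^ 2 + μ b ^ 2 + μ c ^ 2 + μ e ^ 2 → False := by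
    intro a b c e h1 h2 h3 h4 h5 h6
    exact pair_nd (μ b) (μ e) h1 h2 (hμ1 a).1 (hμ1 a).2 (hμ1 c).1 (hμ1 c).2 (hne a c h3)
      (hne a e h4) (hsum1.trans h5) (hsum2.trans h6) hcast.symm
  obtain ⟨j, hj⟩ := hpart 0
  fin_cases j
  · exact hself 0 hj
  · obtain ⟨k, hk⟩ := hpart 2
    fin_cases k
    · have := huniq 0 2 1 (by rw [mul_comm]; exact hk) hj
      exact absurd this (by decide)
    · have := huniq 1 2 0 (by rw [mul_comm]; exact hk) (by rw [mul_comm]; exact hj)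
      exact absurd this (by decide)
    · exact hself 2 hk
    · exact hfin 0 1 2 3 hj hk (by decide) (by decide) rfl rfl
  · obtain ⟨k, hk⟩ := hpart 1
    fin_cases k
    · have := huniq 0 1 2 (by rw [mul_comm]; exact hk) hj
      exact absurd this (by decide)
    · exact hself 1 hk
    · have := huniq 2 1 0 (by rw [mul_comm]; exact hk) (by rw [mul_comm]; exact hj)
      exact absurd this (by decide)
    · exact hfin 0 2 1 3 hj hk (by decide) (by decide) (by ring) (by ring)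
  · obtain ⟨k, hk⟩ := hpart 1
    fin_cases k
    · have := huniq 0 1 3 (by rw [mul_comm]; exact hk) hj
      exact absurd this (by decide)
    · exact hself 1 hk
    · exact hfin 0 3 1 2 hj hk (by decide) (by decide) (by ring) (by ring)
    · have := huniq 3 1 0 (by rw [mul_comm]; exact hk) (by rw [mul_comm]; exact hj)
      exact absurd this (by decide)

end Pool.Agent.D0H81.BF
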